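import Pool.Agent.U585.SI.Nil2

/-!
# MP_028aa5_nt: nilrotations and the random model of the Moebius function

In the random model of the Moebius function the values `μ(p) = -1` are replaced by independent
random signs `f p` (each sign with probability `1/2`) and `μ` by the random function supported on the
squarefree integers with the value `∏_{p ∣ n} f p` at `n`. Almost surely, for all nilmanifolds
`U_m(ℝ)/Γ_q` (`U_m(ℝ)` the unitriangular matrices of size `m`, `Γ_q` the integer ones congruent to one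
modulo `q`), all continuous functions `F` on them and all degrees `D` at once:

* in *every* window of length at least `C log N` of `[1, N]` the correlation with `F(A(n))` is at
  most `ε` times the length for *every* polynomial sequence `A` of degree at most `D` in `U_m(ℝ)`;
* the means, natural and logarithmic, over the windows `(n, n + H]`, `n ≤ N`, of the supremum of the
  correlation over all polynomial sequences of degree at most `D` are at most `ε H`, for all
  `H ≥ H₀` (all `N ≥ 1`, and all `N ≥ H` in the logarithmic case), in particular for all rotations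
  `A(n) = g^n x`, as in the problem.

(By theorems of Malcev and Tietze the sequences `f(g^n x)` of the problem, for all nilmanifolds, are of
the form considered here; this is not part of the formal statement.)

Outline. Modulo `Γ_q` every polynomial sequence may be reduced to one with coefficients in `[0, q]`
in the binomial basis; so there are `H^{O(1)}` sequences of length `H`, up to `ε`. Primes larger than
the length of a window divide at most one integer of the window; the values at the squarefree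
integers with such a prime factor are independent signs. A trick of Erdős shows that every window of
length `N^(o(1))` in `[N, 2N]` contains few integers without such a prime factor. Large deviations,
Borel-Cantelli for blocks of length `C log a` at all `a`, and a second moment over pairs of windows
finish the proof.
-/

set_option autoImplicit false

namespace Pool.Agent.Results.MP_028aa5_nt.RandomModelNilmanifolds

open MeasureTheory Filter Topology ProbabilityTheory

/-- the function on the integers supported on the squarefree ones, with the value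
`∏_{p ∣ n} s p` at `n`; for `s = -1` it is the Moebius function -/
noncomputable def mult (s : ℕ → ℝ) (n : ℕ) : ℝ :=
  open Classical in if Squarefree n then ∏ p ∈ n.primeFactors, s p else 0

/-- the group `U_m(ℝ)` of the upper unitriangular real matrices of size `m` -/
def U (m : ℕ) : Set (Matrix (Fin m) (Fin m) ℝ) :=
  {A | (∀ i, A i i = 1) ∧ ∀ i j, j < i → A i j = 0}

/-- the lattice `Γ_q` of the integer matrices in `U_m(ℝ)` which are congruent to one modulo `q` -/
def lattice (m q : ℕ) : Set (Matrix (Fin m) (Fin m) ℝ) :=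
  {A | A ∈ U m ∧ ∀ i j, i < j → ∃ z : ℤ, A i j = q * z}

/-- `F` is a continuous function on the nilmanifold `U_m(ℝ)/Γ_q` -/
def OnNil (m q : ℕ) (F : Matrix (Fin m) (Fin m) ℝ → ℂ) : Prop :=
  ContinuousOn F (U m) ∧ ∀ A ∈ U m, ∀ γ ∈ lattice m q, F (A * γ) = F A

/-- the sequences in `U_m(ℝ)` whose entries are real polynomials of degree at most `D` -/
def PolySeq (m D : ℕ) : Set (ℕ → Matrix (Fin m) (Fin m) ℝ) :=
  {A | (∀ n, A n ∈ U m) ∧ ∀ i j, ∃ Q : Polynomial ℝ, Q.natDegree ≤ D ∧
    ∀ n : ℕ, A n i j = Q.eval (n : ℝ)}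

/-- `∑_{h = 1}^{H} F(A(n + h)) (mult s)(n + h)` -/
noncomputable def corr {m : ℕ} (s : ℕ → ℝ) (F : Matrix (Fin m) (Fin m) ℝ → ℂ)
    (A : ℕ → Matrix (Fin m) (Fin m) ℝ) (n H : ℕ) : ℂ :=
  ∑ h ∈ Finset.Icc 1 H, F (A (n + h)) * ((mult s (n + h) : ℝ) : ℂ)

/-- the supremum over all polynomial sequences of degree at most `D` -/
noncomputable def supPoly {m : ℕ} (D : ℕ) (s : ℕ → ℝ) (F : Matrix (Fin m) (Fin m) ℝ → ℂ)
    (n H : ℕ) : ℝ := ⨆ A : PolySeq m D, ‖corr s F A.1 n H‖

/-- the supremum over all rotations `g` and points `x` of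
`|∑_{h = 1}^{H} F(g^{h+n} x) (mult s)(n + h)|` -/
noncomputable def supRot {m : ℕ} (s : ℕ → ℝ) (F : Matrix (Fin m) (Fin m) ℝ → ℂ) (n H : ℕ) : ℝ :=
  ⨆ z : U m × U m, ‖∑ h ∈ Finset.Icc 1 H,
    F (z.1.1 ^ (h + n) * z.2.1) * ((mult s (n + h) : ℝ) : ℂ)‖

/-- Nilmanifolds and the random model of the Moebius function. The first statement says that `mult`
is the Moebius function for `s = -1`. -/
theorem result :
    (∀ n : ℕ, mult (fun _ => -1) n = ((ArithmeticFunction.moebius n : ℤ) : ℝ)) ∧
    ∀ (Ω : Type) [MeasurableSpace Ω] (P : Measure Ω) [IsProbabilityMeasure P]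
      (f : ℕ → Ω → ℝ), (∀ p, Measurable (f p)) → iIndepFun f P →
      (∀ p ω, f p ω = 1 ∨ f p ω = -1) → (∀ p, ∫ ω, f p ω ∂P = 0) →
      ∀ᵐ ω ∂P, ∀ (m q : ℕ), 1 ≤ q → ∀ F : Matrix (Fin m) (Fin m) ℝ → ℂ, OnNil m q F →
        ∀ ε : ℝ, 0 < ε →
        (∀ D : ℕ, ∃ C : ℝ, 0 < C ∧ ∀ N n H : ℕ, 2 ≤ N → n + H ≤ N → C * Real.log N ≤ H →
          ∀ A ∈ PolySeq m D, ‖corr (fun p => f p ω) F A n H‖ ≤ ε * H) ∧
        (∀ D : ℕ, ∃ H₀ : ℕ, ∀ N H : ℕ, H₀ ≤ H → 1 ≤ N →
          ∑ n ∈ Finset.Icc 1 N, supPoly D (fun p => f p ω) F n H ≤ ε * H * N ∧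
          (H ≤ N → ∑ n ∈ Finset.Icc 1 N, (1 / (n : ℝ)) * supPoly D (fun p => f p ω) F n H ≤
            ε * H * Real.log N)) ∧
        ∃ H₀ : ℕ, ∀ N H : ℕ, H₀ ≤ H → 1 ≤ N →
          ∑ n ∈ Finset.Icc 1 N, supRot (fun p => f p ω) F n H ≤ ε * H * N ∧
          (H ≤ N → ∑ n ∈ Finset.Icc 1 N, (1 / (n : ℝ)) * supRot (fun p => f p ω) F n H ≤
            ε * H * Real.log N) := by
  refine ⟨fun n => ?_, fun Ω _ P _ f hmeas hind hval hmean => ?_⟩
  · unfold mult
    by_cases h : Squarefree n
    · have h1 : n.primeFactors.card = n.primeFactorsList.length := by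
        have := List.card_toFinset n.primeFactorsList
        rw [(Squarefree.nodup_primeFactorsList h).dedup] at this
        exact this
      rw [if_pos h, ArithmeticFunction.moebius_apply_of_squarefree h, Finset.prod_const,
        ArithmeticFunction.cardFactors_apply, h1]
      push_cast
      rfl
    · rw [if_neg h, ArithmeticFunction.moebius_eq_zero_of_not_squarefree h]
      simp
  have hS : Pool.Agent.U585.GC.Signs P f := ⟨hmeas, hind, hval, hmean⟩
  have hall : ∀ᵐ ω ∂P, ∀ m q D : ℕ, 1 ≤ q → ∀ G ∈ {G : {A : ℕ → Matrix (Fin m) (Fin m) ℝ //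
      Pool.Agent.U585.SI.PolySeq m D A} → ℕ → ℂ | ∃ F, Pool.Agent.U585.SI.NilFun m q F ∧
        ∀ z n, G z n = F (z.1 n)}, ∀ ε : ℝ, 0 < ε →
      (∃ C : ℝ, 0 < C ∧ ∀ N a H : ℕ, 2 ≤ N → a + H ≤ N → C * Real.log N ≤ H →
        ∀ z, ‖Pool.Agent.U585.SI.wsum (fun p => f p ω) G z a H‖ ≤ ε * H) ∧
      ∃ H₀ : ℕ, ∀ N H : ℕ, H₀ ≤ H → 1 ≤ N →
        ∑ n ∈ Finset.Icc 1 N,
          (⨆ z, ‖Pool.Agent.U585.SI.wsum (fun p => f p ω) G z n H‖) ≤ ε * H * N ∧
        (H ≤ N → ∑ n ∈ Finset.Icc 1 N, (1 / (n : ℝ)) *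
          (⨆ z, ‖Pool.Agent.U585.SI.wsum (fun p => f p ω) G z n H‖) ≤ ε * H * Real.log N) := by
    rw [ae_all_iff]
    intro m
    rw [ae_all_iff]
    intro q
    rw [ae_all_iff]
    intro D
    by_cases hq : 1 ≤ q
    · filter_upwards [Pool.Agent.U585.SI.good_main hS (Pool.Agent.U585.SI.good_nil m q D hq)]
        with ω hω _
      exact hω
    · exact ae_of_all _ fun ω h => absurd h hq
  filter_upwards [hall] with ω hω m q hq F hF ε hε
  have hs := fun p => hval p ω
  have hF' : Pool.Agent.U585.SI.NilFun m q F :=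
    ⟨hF.1, fun A γ hA hγ => hF.2 A hA γ hγ⟩
  -- the sequences
  have hshift : ∀ (D a : ℕ) (A : ℕ → Matrix (Fin m) (Fin m) ℝ), A ∈ PolySeq m D →
      Pool.Agent.U585.SI.PolySeq m D (fun k => A (k + a)) := by
    intro D a A hA
    induction a with
    | zero => exact ⟨hA.1, hA.2⟩
    | succ a ih =>
      have := ih.shift
      convert this using 2
      ring_nf
  have hcorr : ∀ (D : ℕ) (A : ℕ → Matrix (Fin m) (Fin m) ℝ) (hA : A ∈ PolySeq m D) (n H : ℕ),
      corr (fun p => f p ω) F A n H = Pool.Agent.U585.SI.wsum (fun p => f p ω)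
        (fun (z : {A : ℕ → Matrix (Fin m) (Fin m) ℝ // Pool.Agent.U585.SI.PolySeq m D A}) i =>
          F (z.1 i)) ⟨fun k => A (k + (n + 1)), hshift D (n + 1) A hA⟩ n H := by
    intro D A hA n H
    unfold corr Pool.Agent.U585.SI.wsum
    rw [Pool.Agent.U585.SI.reindex
      (fun _ u => F (A u) * ((mult (fun p => f p ω) u : ℝ) : ℂ)) n H]
    refine Finset.sum_congr rfl fun u hu => ?_
    rw [Finset.mem_Ioc] at hu
    have e1 : u - n - 1 + (n + 1) = u := by omega
    simp only [e1]
    rfl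
  have hmain := fun (D : ℕ) (e : ℝ) (he : 0 < e) => hω m q D hq
    (fun (z : {A : ℕ → Matrix (Fin m) (Fin m) ℝ // Pool.Agent.U585.SI.PolySeq m D A}) i =>
      F (z.1 i)) ⟨F, hF', fun _ _ => rfl⟩ e he
  obtain ⟨M, hM0, hM⟩ := hF'.bdd hq
  have hbdd : ∀ D n H : ℕ, BddAbove (Set.range fun z : {A : ℕ → Matrix (Fin m) (Fin m) ℝ //
      Pool.Agent.U585.SI.PolySeq m D A} => ‖Pool.Agent.U585.SI.wsum (fun p => f p ω)
        (fun z i => F (z.1 i)) z n H‖) := by
    intro D n H
    refine ⟨M * H, ?_⟩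
    rintro _ ⟨z, rfl⟩
    unfold Pool.Agent.U585.SI.wsum
    refine (norm_sum_le _ _).trans ?_
    calc ∑ u ∈ Finset.Ioc n (n + H), ‖F (z.1 (u - n - 1)) *
          ((Pool.Agent.U585.GC.rf (fun p => f p ω) u : ℝ) : ℂ)‖ ≤
          ∑ _u ∈ Finset.Ioc n (n + H), M := by
          refine Finset.sum_le_sum fun u _ => ?_
          rw [norm_mul, Complex.norm_real, Real.norm_eq_abs]
          have h2 := Pool.Agent.U585.SI.rf_abs hs u
          have h3 := hM _ (z.2.1 (u - n - 1))
          have h4 := norm_nonneg (F (z.1 (u - n - 1)))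
          nlinarith [abs_nonneg (Pool.Agent.U585.GC.rf (fun p => f p ω) u)]
      _ = _ := by
          rw [Finset.sum_const, nsmul_eq_mul, Nat.card_Ioc, show n + H - n = H by omega]
          ring
  have hle : ∀ (D n H : ℕ) (A : ℕ → Matrix (Fin m) (Fin m) ℝ) (_ : A ∈ PolySeq m D),
      ‖corr (fun p => f p ω) F A n H‖ ≤ ⨆ z : {A : ℕ → Matrix (Fin m) (Fin m) ℝ //
        Pool.Agent.U585.SI.PolySeq m D A}, ‖Pool.Agent.U585.SI.wsum (fun p => f p ω)
          (fun z i => F (z.1 i)) z n H‖ := by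
    intro D n H A hA
    rw [hcorr D A hA]
    exact le_ciSup (hbdd D n H) _
  have hsup : ∀ D n H : ℕ, supPoly D (fun p => f p ω) F n H ≤
      ⨆ z : {A : ℕ → Matrix (Fin m) (Fin m) ℝ // Pool.Agent.U585.SI.PolySeq m D A},
        ‖Pool.Agent.U585.SI.wsum (fun p => f p ω) (fun z i => F (z.1 i)) z n H‖ := by
    intro D n H
    exact Real.iSup_le (fun A => hle D n H A.1 A.2) (Real.iSup_nonneg fun _ => norm_nonneg _)
  have hrot : ∀ n H : ℕ, supRot (fun p => f p ω) F n H ≤
      ⨆ z : {A : ℕ → Matrix (Fin m) (Fin m) ℝ // Pool.Agent.U585.SI.PolySeq m m A},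
        ‖Pool.Agent.U585.SI.wsum (fun p => f p ω) (fun z i => F (z.1 i)) z n H‖ := by
    intro n H
    refine Real.iSup_le (fun z => ?_) (Real.iSup_nonneg fun _ => norm_nonneg _)
    have hA : (fun k : ℕ => z.1.1 ^ k * z.2.1) ∈ PolySeq m m := by
      have := Pool.Agent.U585.SI.rotation_poly (m := m) (g := z.1.1) (y := z.2.1) z.1.2 z.2.2
      exact ⟨this.1, this.2⟩
    have := hle m n H _ hA
    refine le_trans (le_of_eq ?_) this
    unfold corr
    congr 1
    refine Finset.sum_congr rfl fun h _ => ?_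
    rw [add_comm h n]
  refine ⟨fun D => ?_, fun D => ?_, ?_⟩
  · obtain ⟨C, hC, hw⟩ := (hmain D ε hε).1
    refine ⟨C, hC, fun N n H hN hnH hH A hA => ?_⟩
    rw [hcorr D A hA]
    exact hw N n H hN hnH hH _
  · obtain ⟨H₀, hH₀⟩ := (hmain D ε hε).2
    refine ⟨H₀, fun N H hH hN => ?_⟩
    obtain ⟨h2, h3⟩ := hH₀ N H hH hN
    refine ⟨(Finset.sum_le_sum fun n _ => hsup D n H).trans h2, fun hHN => ?_⟩
    refine (Finset.sum_le_sum fun n _ => ?_).trans (h3 hHN)
    exact mul_le_mul_of_nonneg_left (hsup D n H) (by positivity)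
  · obtain ⟨H₀, hH₀⟩ := (hmain m ε hε).2
    refine ⟨H₀, fun N H hH hN => ?_⟩
    obtain ⟨h2, h3⟩ := hH₀ N H hH hN
    refine ⟨(Finset.sum_le_sum fun n _ => hrot n H).trans h2, fun hHN => ?_⟩
    refine (Finset.sum_le_sum fun n _ => ?_).trans (h3 hHN)
    exact mul_le_mul_of_nonneg_left (hrot n H) (by positivity)

end Pool.Agent.Results.MP_028aa5_nt.RandomModelNilmanifolds
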